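import Pool.Agent.H48.HMS.Stm

/-! # HMS, module ZDIV: integer division -/

set_option autoImplicit false

namespace Pool.HMS

open TMLib Finset Polynomial Pool.Agent.H74.PPAD

namespace ZDIV

/-- quotient of natural numbers in binary -/
def qB (a b : List Bool) : List Bool := divB a.length a (a.map (fun _ => false) ++ b)

lemma num_false (a : List Bool) : num (a.map (fun _ => false)) = 0 := by
  induction a with
  | nil => rfl
  | cons b l ih =>
    rw [List.map_cons, num, ih]
    rfl

lemma qB_spec (a b : List Bool) (hb : 0 < num b) : num (qB a b) = num a / num b := by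
  have h1 : num (a.map (fun _ => false) ++ b) = 2 ^ a.length * num b := by
    rw [num_append, num_false, List.length_map, Nat.zero_add]
  have hp : 0 < 2 ^ a.length := Nat.pow_pos (by norm_num)
  unfold qB
  rw [divB_spec _ _ _ (by rw [h1]; exact Nat.mul_pos hp hb), h1,
    Nat.mul_div_mul_left _ _ hp]
  have h2 := num_lt a
  have h3 := Nat.div_le_self (num a) (num b)
  exact min_eq_left (by omega)

/-- absolute value of the quotient -/
def mB (s : Bool) (a b : List Bool) : List Bool :=
  if (s && ltB (mulB (qB a b) b) a) = true then addB (qB a b) [true] else qB a b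

lemma pos_case (X Y : ℕ) (hY : 0 < Y) (x : ℤ) (hx : x.natAbs = X) :
    x / (Y : ℤ) = if x < 0 then (if X / Y * Y < X then -((X / Y : ℕ) + 1 : ℤ) else -(X / Y : ℕ))
      else (X / Y : ℕ) := by
  have hd := Nat.div_add_mod X Y
  have hm := Nat.mod_lt X hY
  obtain ⟨Q, hQ⟩ : ∃ Q, Q = X / Y := ⟨_, rfl⟩
  obtain ⟨R, hR⟩ : ∃ R, R = X % Y := ⟨_, rfl⟩
  rw [← hQ, ← hR] at hd
  rw [← hR] at hm
  rw [← hQ]
  have hY' : (0 : ℤ) < Y := by exact_mod_cast hY
  have hd' : (Y : ℤ) * Q + R = X := by exact_mod_cast hd
  have hc : Q * Y < X ↔ 0 < R := by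
    rw [← hd, Nat.mul_comm Q Y]
    omega
  simp only [hc]
  by_cases h : x < 0
  · rw [if_pos h]
    have hx2 : x = -(X : ℤ) := by omega
    by_cases h0 : 0 < R
    · rw [if_pos h0]
      exact ((Int.ediv_emod_unique hY' (r := (Y : ℤ) - R)).2
        ⟨by rw [hx2, ← hd']; ring, by omega, by omega⟩).1
    · rw [if_neg h0]
      have hR0 : R = 0 := by omega
      exact ((Int.ediv_emod_unique hY' (r := 0)).2
        ⟨by rw [hx2, ← hd', hR0]; push_cast; ring, le_rfl, hY'⟩).1
  · rw [if_neg h]
    have hx2 : x = (X : ℤ) := by omega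
    exact ((Int.ediv_emod_unique hY' (r := (R : ℤ))).2
      ⟨by rw [hx2, ← hd']; ring, by omega, by omega⟩).1

lemma zdiv_eq (x y : ℤ) : x / y = if y.natAbs.bits = [] then 0 else
    zmk (decide (x < 0) ^^ decide (y < 0)) (mB (decide (x < 0)) x.natAbs.bits y.natAbs.bits) := by
  by_cases hy0 : y.natAbs.bits = []
  · rw [if_pos hy0]
    have h1 := num_bits' y.natAbs
    rw [hy0] at h1
    have h2 : y = 0 := by
      have : num [] = 0 := rfl
      omega
    rw [h2, Int.ediv_zero]
  · rw [if_neg hy0]
    have hY : 0 < y.natAbs := by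
      rcases Nat.eq_zero_or_pos y.natAbs with h | h
      · exact absurd (by rw [h]; rfl) hy0
      · exact h
    have hq := qB_spec x.natAbs.bits y.natAbs.bits (by rw [num_bits']; exact hY)
    rw [num_bits', num_bits'] at hq
    have hp := pos_case x.natAbs y.natAbs hY x rfl
    have hm : (num (mB (decide (x < 0)) x.natAbs.bits y.natAbs.bits) : ℤ) =
        if x < 0 then (if x.natAbs / y.natAbs * y.natAbs < x.natAbs then
          ((x.natAbs / y.natAbs : ℕ) + 1 : ℤ) else (x.natAbs / y.natAbs : ℕ))
        else (x.natAbs / y.natAbs : ℕ) := by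
      unfold mB
      rw [ltB_spec, mulB_spec, hq, num_bits', num_bits']
      by_cases h : x < 0
      · by_cases h2 : x.natAbs / y.natAbs * y.natAbs < x.natAbs
        · rw [if_pos (by simp [h, h2]), if_pos h, if_pos h2, addB_spec, hq]
          simp [num]
        · rw [if_neg (by simp [h2]), if_pos h, if_neg h2, hq]
      · rw [if_neg (by simp [h]), if_neg h, hq]
    have hzmk : ∀ (s : Bool) (l : List Bool), zmk s l = if s = true then -(num l : ℤ) else num l :=
      fun _ _ => rfl
    rw [hzmk, hm]
    rcases lt_or_ge y 0 with hneg | hpos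
    · have h1 : y = -(y.natAbs : ℤ) := by omega
      have h2 : x / y = -(x / (y.natAbs : ℤ)) := by
        conv_lhs => rw [h1]
        exact Int.ediv_neg _ _
      rw [h2, hp]
      by_cases h : x < 0
      · simp only [h, hneg, decide_true, Bool.xor_self, if_true, Bool.false_eq_true, if_false]
        split_ifs <;> ring
      · simp only [h, hneg, decide_true, decide_false, Bool.false_xor, if_true, if_false]
    · have h1 : y = (y.natAbs : ℤ) := by omega
      have h2 : x / y = x / (y.natAbs : ℤ) := by rw [← h1]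
      have h3 : ¬ y < 0 := by omega
      rw [h2, hp]
      by_cases h : x < 0
      · simp only [h, h3, decide_true, decide_false, Bool.xor_false, if_true]
        split_ifs <;> ring
      · simp only [h, h3, decide_false, Bool.xor_self, Bool.false_eq_true, if_false]

variable {α : Type} [Enc α]

lemma ptime_qB {a b : α → List Bool} (h1 : PTime a) (h2 : PTime b) :
    PTime (fun x => qB (a x) (b x)) := by
  unfold qB
  fun_prop

lemma ptime_mB {s : α → Bool} {a b : α → List Bool} (h0 : PTime s) (h1 : PTime a)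
    (h2 : PTime b) : PTime (fun x => mB (s x) (a x) (b x)) := by
  unfold mB
  have := ptime_qB h1 h2
  fun_prop

end ZDIV

theorem zdiv_thm : S_ZDIV := by
  unfold S_ZDIV
  have h1 : PTime (fun p : ℤ × ℤ => p.1.natAbs.bits) := by fun_prop
  have h2 : PTime (fun p : ℤ × ℤ => p.2.natAbs.bits) := by fun_prop
  have h3 : PTime (fun p : ℤ × ℤ => decide (p.1 < 0)) := by fun_prop
  have h4 : PTime (fun p : ℤ × ℤ => decide (p.2 < 0)) := by fun_prop
  have h5 := ZDIV.ptime_mB h3 h1 h2
  have h6 : PTime (fun p : ℤ × ℤ => if p.2.natAbs.bits = [] then (0 : ℤ) else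
    zmk (decide (p.1 < 0) ^^ decide (p.2 < 0))
      (ZDIV.mB (decide (p.1 < 0)) p.1.natAbs.bits p.2.natAbs.bits)) := by
    fun_prop
  exact h6.congr fun p => ZDIV.zdiv_eq p.1 p.2

end Pool.HMS
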