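import Pool.Agent.H52.HMS.LBase

/-!
# HMS, module LCON: Schur complements depend only on the entries below `D`
-/

set_option autoImplicit false

namespace Pool.HMS

open TMLib Finset

theorem lcon_thm : S_LCON := by
  intro D G G' h
  have key : ∀ k ≤ D, ∀ i < D, ∀ j < D, sch G k i j = sch G' k i j := by
    intro k
    induction k with
    | zero => intro _ i hi j hj; exact h i hi j hj
    | succ k ih =>
      intro hk i hi j hj
      have hk' : k < D := hk
      simp only [sch]
      rw [ih hk'.le i hi j hj, ih hk'.le i hi k hk', ih hk'.le k hk' j hj, ih hk'.le k hk' k hk']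
  refine ⟨key, fun k hk => key k hk.le k hk k hk, fun i hi k hk => ?_⟩
  simp only [mu]
  rw [key k hk.le i hi k hk, key k hk.le k hk k hk]

end Pool.HMS
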