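import Pool.Agent.H52.HMS.LBase

/-!
# HMS, module LSCH: Schur complements of `L r Lᵀ`
-/

set_option autoImplicit false

namespace Pool.HMS

open TMLib Finset

theorem lsch_thm : S_LSCH := by
  intro D G L r h
  -- a row of the truncated product
  have row : ∀ k < D, ∀ i < D, ∑ l ∈ Ico k D, L i l * r l * L k l = L i k * r k := by
    intro k hk i hi
    rw [Finset.sum_eq_single k]
    · rw [h.one k hk, mul_one]
    · intro l hl hlk
      have h1 := mem_Ico.mp hl
      rw [h.tri k hk l h1.2 (lt_of_le_of_ne h1.1 (Ne.symm hlk)), mul_zero]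
    · intro hk'
      exact absurd (mem_Ico.mpr ⟨le_rfl, hk⟩) hk'
  have row' : ∀ k < D, ∀ j < D, ∑ l ∈ Ico k D, L k l * r l * L j l = L j k * r k := by
    intro k hk j hj
    rw [← row k hk j hj]
    exact sum_congr rfl fun l _ => by ring
  have key : ∀ k ≤ D, ∀ i < D, ∀ j < D, sch G k i j = ∑ l ∈ Ico k D, L i l * r l * L j l := by
    intro k
    induction k with
    | zero =>
      intro _ i hi j hj
      rw [← range_eq_Ico]
      exact h.eq i hi j hj
    | succ k ih =>
      intro hk i hi j hj
      have hk' : k < D := hk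
      have hr := (h.pos k hk').ne'
      simp only [sch]
      rw [ih hk'.le i hi j hj, ih hk'.le i hi k hk', ih hk'.le k hk' j hj, ih hk'.le k hk' k hk',
        row k hk' i hi, row' k hk' j hj, row k hk' k hk', h.one k hk',
        sum_eq_sum_Ico_succ_bot hk']
      field_simp
      ring
  have hk2 : ∀ i < D, ∀ k < D, sch G k i k = L i k * r k := fun i hi k hk => by
    rw [key k hk.le i hi k hk, row k hk i hi]
  refine ⟨key, fun k hk => ?_, fun i hi k hk => ?_⟩
  · rw [rr, hk2 k hk k hk, h.one k hk, one_mul]
  · have hr := (h.pos k hk).ne'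
    rw [mu, hk2 i hi k hk, hk2 k hk k hk, h.one k hk, one_mul]
    field_simp

end Pool.HMS
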