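import Pool.Agent.H91.HMS.RPLib

/-!
# HMS box 2, module RPT3: the output function is polynomial time
-/

set_option autoImplicit false

namespace Pool.HMS

open TMLib Finset

section

attribute [local fun_prop] P45.add P45.mul P45.neg P45.sub P45.div P45.le P45.lt P45.castInt
  P45.castNat P45.pow P45.fn' P45.ent' P91.qfloor P91.qceilQ P91.qmax P91.RD'

variable {α : Type} [Enc α] [Fact QOps] [Fact QSums]

theorem rpt3_h0 {D : α → ℕ} (hD : PTime D) : PTime (fun a => h0 (D a)) := by
  unfold h0 rhoD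
  refine P45.div (P45.pow (P45.div (P45.div (PTime.const _) ?_) ?_) (PTime.const _)) ?_
  · exact P45.mul (P45.mul (PTime.const _) (P91.RD' hD)) (P45.add (P45.castNat hD) (PTime.const _))
  · exact P45.pow (P45.castNat hD) (PTime.const _)
  · exact P45.mul (P45.castNat hD) (P45.pow (PTime.const _) (by fun_prop))

theorem rpt3_wdh {D : α → ℕ} (hD : PTime D) : PTime (fun a => ((wdh (D a) : ℕ) : ℚ)) := by
  have h : PTime (fun a => (5 * 2 ^ (D a) * (D a : ℚ) ^ 3 * (8 * (D a : ℚ) ^ 3 + 1) *
      ((D a : ℚ) + 1))) := by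
    refine P45.mul (P45.mul (P45.mul (P45.mul (PTime.const _) (P45.pow (PTime.const _) hD))
      (P45.pow (P45.castNat hD) (PTime.const _))) (P45.add (P45.mul (PTime.const _)
      (P45.pow (P45.castNat hD) (PTime.const _))) (PTime.const _)))
      (P45.add (P45.castNat hD) (PTime.const _))
  refine h.congr fun a => ?_
  unfold wdh
  push_cast
  ring

theorem rpt3_mat {D : α → ℕ} {st : α → RS} (hD : PTime D) (hst : PTime st) :
    PTime (fun a => rMat (D a) (st a)) := by
  unfold rMat
  exact P91.tabM' (by fun_prop) (by fun_prop) (by fun_prop)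

theorem rpt3_Z {D : α → ℕ} {V U W : α → Mat} (hD : PTime D) (hV : PTime V) (hU : PTime U)
    (hW : PTime W) : PTime (fun a => rZ (D a) (V a) (U a) (W a)) := by
  unfold rZ
  refine P45.tab' (by fun_prop) (P91.sumRange (by fun_prop) (P45.mul (P45.castInt (P91.qfloor
    (P45.add (P91.sumRange (by fun_prop) (P45.mul (by fun_prop) (P45.div (P91.sumRange
      (by fun_prop) (by fun_prop)) (by fun_prop)))) (by fun_prop)))) (by fun_prop)))

theorem rpt3_K {D : α → ℕ} {V W : α → Mat} (hD : PTime D) (hV : PTime V) (hW : PTime W) :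
    PTime (fun a => rK (D a) (V a) (W a)) := by
  unfold rK
  exact P45.castInt (P91.qfloor (P91.sumRange (by fun_prop) (by fun_prop)))

end

attribute [local fun_prop] P45.add P45.mul P45.neg P45.sub P45.div P45.le P45.lt P45.castInt
  P45.castNat P45.pow P45.fn' P45.ent' P91.qfloor P91.qceilQ P91.qmax P91.RD'

/-- RPT3: the output function is polynomial time. -/
theorem rpt3_thm (h1 : S_QOP) (h2 : S_QSUM) : S_RPT3 := by
  have : Fact QOps := ⟨h1⟩
  have : Fact QSums := ⟨h2⟩
  intro lll hl
  have hD : PTime (fun p : ℕ × RS => p.1) := by fun_prop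
  have hr : PTime (fun p : ℕ × RS => lll (p.1, p.1, rMat p.1 p.2, p.2.2.2 ^ 2 * h0 p.1)) := by
    refine hl.comp (f := fun p : ℕ × RS => (p.1, p.1, rMat p.1 p.2, p.2.2.2 ^ 2 * h0 p.1)) ?_
    exact PTime.pair hD (PTime.pair hD (PTime.pair (rpt3_mat hD (by fun_prop))
      (P45.mul (by fun_prop) (rpt3_h0 hD))))
  have hr1 := hr.fst
  have hr21 := hr.snd.fst
  have hr22 := hr.snd.snd
  unfold rOut
  exact PTime.pair (PTime.pair (PTime.not hr1) (rpt3_Z hD (by fun_prop) hr21 hr22))
    (PTime.pair (PTime.pair hr21 hr22) (PTime.pair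
      (P45.sub (rpt3_K hD (by fun_prop) hr22) (rpt3_wdh hD))
      (P45.add (P45.add (rpt3_K hD (by fun_prop) hr22) (PTime.const 1)) (rpt3_wdh hD))))

end Pool.HMS
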