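import Pool.Agent.H91.HMS.RLib

/-! # HMS, module RMAX -/

set_option autoImplicit false

namespace Pool.HMS

open TMLib Finset

theorem rmax_thm : S_RMAX := by
  intro D s V
  obtain ⟨l, hl⟩ : ∃ l, l = (List.range (D + 1)).filter fun j =>
    (List.range (D + 1)).all fun i => decide (rVal D s V i ≤ rVal D s V j) := ⟨_, rfl⟩
  have hmem : ∀ j, j ∈ l ↔ j ≤ D ∧ ∀ i ≤ D, rVal D s V i ≤ rVal D s V j := by
    intro j
    rw [hl]
    simp only [List.mem_filter, List.mem_range, List.all_eq_true, decide_eq_true_eq, Nat.lt_succ_iff]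
  obtain ⟨j0, hj0, hmax⟩ := Finset.exists_max_image (range (D + 1)) (rVal D s V)
    ⟨0, by simp⟩
  have h0 : j0 ∈ l := (hmem j0).2 ⟨by simpa [Nat.lt_succ_iff] using hj0, fun i hi =>
    hmax i (Finset.mem_range.2 (by omega))⟩
  have hne : l ≠ [] := List.ne_nil_of_mem h0
  obtain ⟨a, t, hat⟩ := List.exists_cons_of_ne_nil hne
  have hr : rMax D s V = a := by
    unfold rMax
    rw [← hl, hat]
    rfl
  rw [hr]
  exact (hmem a).1 (by rw [hat]; exact List.mem_cons_self)

end Pool.HMS
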