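import Pool.Agent.H91.HMS.RLib

/-! # HMS, module RPROD: the product of the scaling factors -/

set_option autoImplicit false

namespace Pool.HMS

open TMLib Finset

namespace RPROD

theorem prod_ge_add (t : Finset ℕ) (y : ℕ → ℚ) (h : ∀ j ∈ t, 0 ≤ y j) :
    1 + ∑ j ∈ t, y j ≤ ∏ j ∈ t, (1 + y j) := by
  induction t using Finset.induction_on with
  | empty => simp
  | insert a t ha ih =>
    rw [sum_insert ha, prod_insert ha]
    have h1 := ih fun j hj => h j (mem_insert_of_mem hj)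
    have h2 := h a (mem_insert_self _ _)
    have h3 : 0 ≤ ∑ j ∈ t, y j := sum_nonneg fun j hj => h j (mem_insert_of_mem hj)
    nlinarith

theorem prod_ge_sub (t : Finset ℕ) (y : ℕ → ℚ) (h : ∀ j ∈ t, 0 ≤ y j ∧ y j ≤ 1) :
    1 - ∑ j ∈ t, y j ≤ ∏ j ∈ t, (1 - y j) ∧ 0 ≤ ∏ j ∈ t, (1 - y j) := by
  induction t using Finset.induction_on with
  | empty => simp
  | insert a t ha ih =>
    rw [sum_insert ha, prod_insert ha]
    obtain ⟨h1, h1'⟩ := ih fun j hj => h j (mem_insert_of_mem hj)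
    obtain ⟨h2, h2'⟩ := h a (mem_insert_self _ _)
    have h3 : 0 ≤ ∑ j ∈ t, y j := sum_nonneg fun j hj => (h j (mem_insert_of_mem hj)).1
    refine ⟨?_, mul_nonneg (by linarith) h1'⟩
    nlinarith

end RPROD

theorem rprod_thm : S_RPROD := by
  intro D a n hD ha hn hsum
  classical
  have hDq : (1 : ℚ) ≤ D := by exact_mod_cast hD
  have hD0 : (0 : ℚ) < D := by linarith
  obtain ⟨F, hF⟩ : ∃ F : ℚ, F = 16 * (D : ℚ) ^ 3 := ⟨_, rfl⟩
  have hF0 : 0 < F := by rw [hF]; positivity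
  rw [← hF]
  obtain ⟨s, hs⟩ : ∃ s, s = (range (D + 1)).filter (· ≠ a) := ⟨_, rfl⟩
  rw [← hs] at hsum ⊢
  have hsD : ∀ j ∈ s, j ≤ D := by
    intro j hj
    rw [hs, mem_filter, mem_range] at hj
    omega
  have hcard : s.card = D := by
    rw [hs, filter_ne', card_erase_of_mem (mem_range.2 (by omega)), card_range]
    rfl
  have e1 : ∀ j, (F - n j) / F = 1 - n j / F := by
    intro j
    field_simp
  simp only [e1]
  rw [← prod_filter_mul_prod_filter_not s (fun j => n j < 0)]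
  obtain ⟨s1, hs1⟩ : ∃ s1, s1 = s.filter (fun j => n j < 0) := ⟨_, rfl⟩
  obtain ⟨s2, hs2⟩ : ∃ s2, s2 = s.filter (fun j => ¬ n j < 0) := ⟨_, rfl⟩
  rw [← hs1, ← hs2]
  have hsplit : ∑ j ∈ s1, n j + ∑ j ∈ s2, n j = ∑ j ∈ s, n j := by
    rw [hs1, hs2]
    exact sum_filter_add_sum_filter_not s (fun j => n j < 0) n
  have hc : s1.card + s2.card = D := by
    rw [hs1, hs2, card_filter_add_card_filter_not, hcard]
  obtain ⟨A, hA⟩ : ∃ A, A = ∑ j ∈ s1, -n j := ⟨_, rfl⟩
  obtain ⟨B, hB⟩ : ∃ B, B = ∑ j ∈ s2, n j := ⟨_, rfl⟩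
  have hA' : ∑ j ∈ s1, n j = -A := by rw [hA, sum_neg_distrib, neg_neg]
  rw [hA', ← hB] at hsplit
  have hAB : B + 2 * D ≤ A := by linarith
  have hB0 : 0 ≤ B := by
    rw [hB]
    apply sum_nonneg
    intro j hj
    rw [hs2, mem_filter] at hj
    exact not_lt.1 hj.2
  have hs1ne : 1 ≤ s1.card := by
    rw [Nat.one_le_iff_ne_zero]
    intro h0
    rw [card_eq_zero] at h0
    rw [h0, sum_empty] at hA
    linarith
  have hB1 : B ≤ (D - 1) * (4 * D) := by
    have h1 : B ≤ s2.card • (4 * (D : ℚ)) := by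
      rw [hB]
      apply sum_le_card_nsmul
      intro j hj
      rw [hs2, mem_filter] at hj
      exact (hn j (hsD j hj.1)).2
    have h2 : (s2.card : ℚ) ≤ D - 1 := by
      have : s2.card + 1 ≤ D := by omega
      have : ((s2.card + 1 : ℕ) : ℚ) ≤ D := by exact_mod_cast this
      push_cast at this
      linarith
    rw [nsmul_eq_mul] at h1
    nlinarith
  -- the two products
  have p1 : 1 + A / F ≤ ∏ j ∈ s1, (1 - n j / F) := by
    have h1 := RPROD.prod_ge_add s1 (fun j => -n j / F) (by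
      intro j hj
      rw [hs1, mem_filter] at hj
      exact div_nonneg (by linarith [hj.2]) hF0.le)
    rw [← sum_div, ← hA] at h1
    refine h1.trans (le_of_eq (prod_congr rfl fun j _ => ?_))
    ring
  have p2 := RPROD.prod_ge_sub s2 (fun j => n j / F) (by
    intro j hj
    rw [hs2, mem_filter] at hj
    refine ⟨div_nonneg (not_lt.1 hj.2) hF0.le, ?_⟩
    rw [div_le_one hF0, hF]
    have h1 := (hn j (hsD j hj.1)).2
    nlinarith [sq_nonneg ((D : ℚ) - 1), mul_pos hD0 hD0])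
  rw [← sum_div, ← hB] at p2
  have hA0 : 0 ≤ A := by linarith
  have h3 : (1 + A / F) * (1 - B / F) ≤ (∏ j ∈ s1, (1 - n j / F)) * ∏ j ∈ s2, (1 - n j / F) := by
    have h4 : 0 ≤ 1 - B / F := by
      have : B / F ≤ 1 := by
        rw [div_le_one hF0, hF]
        nlinarith [sq_nonneg ((D : ℚ) - 1), mul_pos hD0 hD0]
      linarith
    have h5 : 0 ≤ 1 + A / F := by
      have := div_nonneg hA0 hF0.le
      linarith
    exact mul_le_mul p1 p2.1 h4 (h5.trans p1)
  refine le_trans ?_ h3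
  have h6 : (1 + (B + 2 * D) / F) * (1 - B / F) ≤ (1 + A / F) * (1 - B / F) := by
    apply mul_le_mul_of_nonneg_right
    · have : (B + 2 * D) / F ≤ A / F := div_le_div_of_nonneg_right hAB hF0.le
      linarith
    · have : B / F ≤ 1 := by
        rw [div_le_one hF0, hF]
        nlinarith [sq_nonneg ((D : ℚ) - 1), mul_pos hD0 hD0]
      linarith
  refine le_trans ?_ h6
  have h7 : (1 + (B + 2 * D) / F) * (1 - B / F) = 1 + 2 * D / F - B * (B + 2 * D) / F ^ 2 := by
    field_simp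
    ring
  rw [h7]
  have h8 : B * (B + 2 * D) ≤ (D - 1) * (4 * D) * ((D - 1) * (4 * D) + 2 * D) := by
    apply mul_le_mul hB1 (by linarith) (by positivity) (by nlinarith)
  have h9 : B * (B + 2 * D) / F ^ 2 ≤ 1 / (16 * (D : ℚ) ^ 2) := by
    rw [div_le_div_iff₀ (by positivity) (by positivity), hF]
    have h10 : (D - 1) * (4 * D) * ((D - 1) * (4 * D) + 2 * D) ≤ 16 * (D : ℚ) ^ 4 := by
      nlinarith [mul_pos hD0 hD0, mul_pos (mul_pos hD0 hD0) hD0, sq_nonneg ((D : ℚ) - 1)]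
    nlinarith [mul_pos hD0 hD0]
  have h11 : 2 * (D : ℚ) / F = 1 / (16 * (D : ℚ) ^ 2) + 1 / (16 * (D : ℚ) ^ 2) := by
    rw [hF]
    field_simp
    norm_num
  linarith

end Pool.HMS
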