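import Pool.Agent.H83.HMS.RINIT

/-! # HMS, module RSZ0: sizes at the start -/

set_option autoImplicit false

namespace Pool.HMS

open TMLib Finset RINIT

theorem rsz0_thm : S_RSZ0 := by
  intro D B
  have hden : IsI ((B.den : ℚ) * B) := ⟨B.num, by rw [mul_comm]; exact Rat.mul_den_eq_num B⟩
  have hd : IsI (B.den : ℚ) := IsI.nat _
  have h2 : ∀ n : ℕ, IsI ((B.den : ℚ) * (n * B)) := by
    intro n
    have := (IsI.nat n).mul hden
    rwa [show (n : ℚ) * ((B.den : ℚ) * B) = (B.den : ℚ) * (n * B) by ring] at this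
  have hB : |B| ≤ (B.num.natAbs : ℚ) := by
    have h3 : (B.den : ℚ) * |B| = (B.num.natAbs : ℚ) := by
      rw [← abs_of_nonneg (show (0 : ℚ) ≤ (B.den : ℚ) by positivity), ← abs_mul, mul_comm,
        Rat.mul_den_eq_num B, Nat.cast_natAbs, Int.cast_abs]
    have h4 : (1 : ℚ) ≤ B.den := by exact_mod_cast B.den_pos
    nlinarith [abs_nonneg B]
  obtain ⟨M, hM⟩ : ∃ M : ℕ, M = (2 * D + 1) * (B.num.natAbs + 1) := ⟨_, rfl⟩
  rw [← hM]
  obtain ⟨b, hb⟩ : ∃ b : ℚ, b = (B.num.natAbs : ℚ) := ⟨_, rfl⟩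
  rw [← hb] at hB
  have hb0 : 0 ≤ b := by rw [hb]; positivity
  have hMq : (M : ℚ) = (2 * D + 1) * (b + 1) := by rw [hM, hb]; push_cast; ring
  have hD0 : (0 : ℚ) ≤ D := by positivity
  have hDb : 0 ≤ (D : ℚ) * b := mul_nonneg hD0 hb0
  have hDB : |(D : ℚ) * B| ≤ D * b := by
    rw [abs_mul, abs_of_nonneg hD0]
    exact mul_le_mul_of_nonneg_left hB hD0
  obtain ⟨hB1, hB2⟩ := abs_le.1 hB
  obtain ⟨hD1, hD2⟩ := abs_le.1 hDB
  refine ⟨length_tabM _ _ _, fun r hr => length_of_mem_tabM hr, length_tabM _ _ _,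
    fun r hr => length_of_mem_tabM hr, ⟨B.den, B.den_pos, le_rfl, ?_⟩,
    ⟨B.den, B.den_pos, le_rfl, ?_, ?_⟩, ?_, ?_, ?_⟩
  · intro i j
    rw [V_apply]
    split_ifs
    · have := (h2 (2 * D)).sub hden
      rwa [show (B.den : ℚ) * (((2 * D : ℕ) : ℚ) * B) - (B.den : ℚ) * B =
        (B.den : ℚ) * (2 * D * B - B) by push_cast; ring] at this
    · rw [mul_neg]; exact hden.neg
    · rw [mul_zero]; exact IsI.zero
  · intro i j
    rw [G_apply]
    split_ifs
    · exact h2 D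
    · rw [mul_neg, mul_one]; exact hd.neg
    · exact hden
    · rw [mul_one]; exact hd
    · rw [mul_zero]; exact IsI.zero
    · rw [mul_zero]; exact IsI.zero
  · have := h2 (2 * D)
    show IsI ((B.den : ℚ) * (2 * D * B))
    rwa [show (B.den : ℚ) * (((2 * D : ℕ) : ℚ) * B) = (B.den : ℚ) * (2 * D * B) by
      push_cast; ring] at this
  · intro i j
    rw [V_apply, hMq]
    split_ifs
    · rw [abs_le]; constructor <;> nlinarith
    · rw [abs_le]; constructor <;> nlinarith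
    · rw [abs_zero]; nlinarith
  · intro i j
    rw [G_apply, hMq]
    split_ifs
    · rw [abs_le]; constructor <;> nlinarith
    · rw [abs_le]; constructor <;> nlinarith
    · rw [abs_le]; constructor <;> nlinarith
    · rw [abs_le]; constructor <;> nlinarith
    · rw [abs_zero]; nlinarith
    · rw [abs_zero]; nlinarith
  · show |2 * (D : ℚ) * B| ≤ M
    rw [hMq, abs_le]
    constructor <;> nlinarith

end Pool.HMS
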