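import Pool.Agent.H91.HMS.RLib

/-! # HMS, module RINIT: the initial simplex -/

set_option autoImplicit false

namespace Pool.HMS

open TMLib Finset

namespace RINIT

variable (D : ℕ) (B : ℚ)

theorem V_apply (j i : ℕ) : ent (rInit D B).1 j i =
    if j < D + 1 ∧ i < D then (if j = i + 1 then 2 * D * B - B else -B) else 0 := ent_tabM _ _ _ _ _

theorem G_apply (j i : ℕ) : ent (rInit D B).2.1 j i =
    if j < D + 1 ∧ i < D + 1 then
      (if j = 0 then (if i = 0 then D * B else -1) else
        (if i = 0 then B else if i = j then 1 else 0)) else 0 := ent_tabM _ _ _ _ _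

theorem aff_zero (x : ℕ → ℚ) : aff D (ent (rInit D B).2.1 0) x = D * B - ∑ i ∈ range D, x i := by
  unfold aff
  rw [G_apply, if_pos ⟨by omega, by omega⟩, if_pos rfl, if_pos rfl, sub_eq_add_neg,
    ← sum_neg_distrib]
  congr 1
  apply sum_congr rfl
  intro i hi
  have := mem_range.1 hi
  rw [G_apply, if_pos ⟨by omega, by omega⟩, if_pos rfl, if_neg (by omega)]
  ring

theorem aff_succ (x : ℕ → ℚ) {j : ℕ} (hj : j < D) :
    aff D (ent (rInit D B).2.1 (j + 1)) x = B + x j := by
  unfold aff
  rw [G_apply, if_pos ⟨by omega, by omega⟩, if_neg (by omega), if_pos rfl]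
  congr 1
  rw [sum_eq_single j]
  · rw [G_apply, if_pos ⟨by omega, by omega⟩, if_neg (by omega), if_neg (by omega), if_pos rfl,
      one_mul]
  · intro i hi hij
    have := mem_range.1 hi
    rw [G_apply, if_pos ⟨by omega, by omega⟩, if_neg (by omega), if_neg (by omega),
      if_neg (by omega), zero_mul]
  · intro h
    exact absurd (mem_range.2 hj) h

theorem sum_V (j : ℕ) (hj : j ≤ D) : ∑ i ∈ range D, ent (rInit D B).1 j i =
    -(D * B) + if j = 0 then 0 else 2 * D * B := by
  have h1 : ∀ i ∈ range D, ent (rInit D B).1 j i = -B + if j = i + 1 then 2 * D * B else 0 := by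
    intro i hi
    have := mem_range.1 hi
    rw [V_apply, if_pos ⟨by omega, by omega⟩]
    split_ifs <;> ring
  rw [sum_congr rfl h1, sum_add_distrib, sum_const, card_range, nsmul_eq_mul]
  congr 1
  · ring
  · rcases j with _ | j
    · rw [if_pos rfl]
      apply sum_eq_zero
      intro i _
      rw [if_neg (by omega)]
    · rw [if_neg (by omega), sum_eq_single j]
      · rw [if_pos rfl]
      · intro i _ hij
        rw [if_neg (by omega)]
      · intro h
        exact absurd (mem_range.2 (by omega)) h

end RINIT

open RINIT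

theorem rinit_thm : S_RINIT := by
  intro D B K hD hBI hB hK
  have hDq : (1 : ℚ) ≤ D := by exact_mod_cast hD
  have hS : (rInit D B).2.2 = 2 * D * B := rfl
  have hS0 : 0 < 2 * (D : ℚ) * B := by positivity
  have hone : ∀ x, ∑ j ∈ range (D + 1), aff D (ent (rInit D B).2.1 j) x = 2 * D * B := by
    intro x
    rw [sum_range_succ', aff_zero]
    have h1 : ∀ j ∈ range D, aff D (ent (rInit D B).2.1 (j + 1)) x = B + x j := fun j hj =>
      aff_succ D B x (mem_range.1 hj)
    rw [sum_congr rfl h1, sum_add_distrib, sum_const, card_range, nsmul_eq_mul]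
    ring
  refine ⟨⟨?_, ?_, ?_, ?_, ?_, ?_, ?_⟩, ?_⟩
  · rw [hS]; exact hS0
  · intro i j
    rw [G_apply]
    split_ifs
    · exact (IsI.nat D).mul hBI
    · exact IsI.one.neg
    · exact hBI
    · exact IsI.one
    · exact IsI.zero
    · exact IsI.zero
  · intro x hx c hc
    rw [hS]
    have h1 : ∀ j ∈ range (D + 1), aff D (ent (rInit D B).2.1 j) x * ent (rInit D B).1 j c =
        -B * aff D (ent (rInit D B).2.1 j) x + (if j = c + 1 then (B + x c) * (2 * D * B) else 0) := by
      intro j hj
      have := mem_range.1 hj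
      rw [V_apply, if_pos ⟨by omega, by omega⟩]
      by_cases h : j = c + 1
      · rw [if_pos h, if_pos h, h, aff_succ D B x hc]
        ring
      · rw [if_neg h, if_neg h]
        ring
    rw [sum_congr rfl h1, sum_add_distrib, ← mul_sum, hone, sum_ite_eq' (range (D + 1)) (c + 1),
      if_pos (mem_range.2 (by omega))]
    ring
  · intro x
    rw [hS]
    exact hone x
  · intro i hi j hj
    rw [hS]
    rcases i with _ | i
    · rw [aff_zero, sum_V D B j hj]
      by_cases h : j = 0
      · rw [if_pos h, if_pos h.symm]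
        ring
      · rw [if_neg h, if_neg (fun h' => h h'.symm)]
        ring
    · rw [aff_succ D B _ (by omega), V_apply, if_pos ⟨by omega, by omega⟩]
      by_cases h : j = i + 1
      · rw [if_pos h, if_pos h.symm]
        ring
      · rw [if_neg h, if_neg (fun h' => h h'.symm)]
        ring
  · intro j
    exact supp_tabM _ _ _ _
  · intro x hx j hj
    obtain ⟨-, hb⟩ := hK x hx
    rcases j with _ | j
    · rw [aff_zero]
      have h1 : ∑ i ∈ range D, x i ≤ ∑ i ∈ range D, B :=
        sum_le_sum fun i _ => (abs_le.1 (hb i)).2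
      rw [sum_const, card_range, nsmul_eq_mul] at h1
      linarith
    · rw [aff_succ D B _ (by omega)]
      have := (abs_le.1 (hb j)).1
      linarith
  · unfold rdet
    have h1 : (Matrix.of fun c k : Fin D => ent (rInit D B).2.1 (k + 1) (c + 1)) = 1 := by
      ext c k
      rw [Matrix.of_apply, G_apply, if_pos ⟨by omega, by omega⟩, if_neg (by omega),
        if_neg (by omega), Matrix.one_apply]
      by_cases h : c = k
      · rw [if_pos h, if_pos (by rw [h])]
      · rw [if_neg h, if_neg (by
          intro h'
          apply h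
          exact Fin.ext (by omega))]
    rw [h1, Matrix.det_one, hS, one_div_pow]

end Pool.HMS
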